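import Pool.Agent.Q62.UM.Stm2

/-! Project UM, job DU: polynomials in one algebraic function (count of dimensions). -/

set_option autoImplicit false

open Polynomial

namespace Pool.Agent.Q237.UM

open Pool.Agent.Q62.UM

noncomputable section

/-- the coefficients are polynomials of degree at most `n` -/
def rd (n : ℕ) (A : ℂ[X][X]) : Prop := ∀ i, (A.coeff i).natDegree ≤ n

theorem rd_mono {n m : ℕ} (h : n ≤ m) {A : ℂ[X][X]} (hA : rd n A) : rd m A :=
  fun i => (hA i).trans h

theorem rd_zero (n : ℕ) : rd n 0 := fun i => by simp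

theorem rd_add {n : ℕ} {A B : ℂ[X][X]} (hA : rd n A) (hB : rd n B) : rd n (A + B) := fun i => by
  rw [coeff_add]
  exact (natDegree_add_le _ _).trans (max_le (hA i) (hB i))

theorem rd_neg {n : ℕ} {A : ℂ[X][X]} (hA : rd n A) : rd n (-A) := fun i => by
  rw [coeff_neg, natDegree_neg]
  exact hA i

theorem rd_sum {n : ℕ} {ι : Type} (s : Finset ι) (F : ι → ℂ[X][X]) (h : ∀ k ∈ s, rd n (F k)) :
    rd n (∑ k ∈ s, F k) := by
  classical
  induction s using Finset.induction_on with
  | empty => simpa using rd_zero n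
  | insert a s ha ih =>
    rw [Finset.sum_insert ha]
    exact rd_add (h a (Finset.mem_insert_self _ _))
      (ih fun k hk => h k (Finset.mem_insert_of_mem hk))

theorem rd_mul {n m : ℕ} {A B : ℂ[X][X]} (hA : rd n A) (hB : rd m B) : rd (n + m) (A * B) :=
  fun i => by
    rw [coeff_mul]
    refine natDegree_sum_le_of_forall_le _ _ fun p _ => ?_
    exact natDegree_mul_le.trans (add_le_add (hA _) (hB _))

theorem rd_C {n : ℕ} (p : ℂ[X]) (h : p.natDegree ≤ n) : rd n (C p) := fun i => by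
  rw [coeff_C]
  split_ifs
  · exact h
  · simp

theorem rd_pow {n : ℕ} {A : ℂ[X][X]} (hA : rd n A) (k : ℕ) : rd (k * n) (A ^ k) := by
  induction k with
  | zero =>
    rw [pow_zero, Nat.zero_mul]
    have : (1 : ℂ[X][X]) = C 1 := by simp
    rw [this]
    exact rd_C 1 (by simp)
  | succ k ih =>
    rw [pow_succ]
    exact rd_mono (by ring_nf; exact le_refl _) (rd_mul ih hA)

theorem rd_comp {n m T : ℕ} {A P : ℂ[X][X]} (hA : rd n A) (hT : A.natDegree ≤ T) (hP : rd m P) :
    rd (n + T * m) (A.comp P) := by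
  rw [comp, eval₂_eq_sum_range]
  refine rd_sum _ _ fun k hk => ?_
  have hk' : k ≤ T := (Nat.lt_succ_iff.1 (Finset.mem_range.1 hk)).trans hT
  exact rd_mono (Nat.add_le_add_left (Nat.mul_le_mul_right _ hk') _)
    (rd_mul (rd_C _ (hA k)) (rd_pow hP k))

/-- the polynomial with given coefficients -/
def mk (n m : ℕ) : (Fin n × Fin m → ℂ) →ₗ[ℂ] ℂ[X][X] where
  toFun c := ∑ p : Fin n × Fin m, monomial (p.1 : ℕ) (monomial (p.2 : ℕ) (c p))
  map_add' c c' := by
    simp only [Pi.add_apply, map_add, Finset.sum_add_distrib]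
  map_smul' z c := by
    simp only [Pi.smul_apply, RingHom.id_apply, Finset.smul_sum, smul_monomial]

theorem mk_coeff (n m : ℕ) (c : Fin n × Fin m → ℂ) (p : Fin n × Fin m) :
    ((mk n m c).coeff (p.1 : ℕ)).coeff (p.2 : ℕ) = c p := by
  have : mk n m c = ∑ p : Fin n × Fin m, monomial (p.1 : ℕ) (monomial (p.2 : ℕ) (c p)) := rfl
  rw [this, finset_sum_coeff, finset_sum_coeff, Finset.sum_eq_single p]
  · simp
  · rintro ⟨i, b⟩ _ hne
    rw [coeff_monomial]
    split_ifs with h
    · rw [coeff_monomial, if_neg]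
      intro h'
      exact hne (Prod.ext (Fin.ext h) (Fin.ext h'))
    · simp
  · intro h
    exact absurd (Finset.mem_univ _) h

theorem mk_inj (n m : ℕ) (c : Fin n × Fin m → ℂ) (h : mk n m c = 0) : c = 0 := by
  funext p
  rw [← mk_coeff n m c p, h]
  simp

theorem mk_nd (n m : ℕ) (c : Fin (n + 1) × Fin m → ℂ) : (mk (n + 1) m c).natDegree ≤ n := by
  have : mk (n + 1) m c =
    ∑ p : Fin (n + 1) × Fin m, monomial (p.1 : ℕ) (monomial (p.2 : ℕ) (c p)) := rfl
  rw [this]
  refine natDegree_sum_le_of_forall_le _ _ fun p _ => ?_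
  exact (natDegree_monomial_le _).trans (Nat.lt_succ_iff.1 p.1.2)

theorem mk_rd (n m : ℕ) (c : Fin n × Fin (m + 1) → ℂ) : rd m (mk n (m + 1) c) := by
  have : mk n (m + 1) c =
    ∑ p : Fin n × Fin (m + 1), monomial (p.1 : ℕ) (monomial (p.2 : ℕ) (c p)) := rfl
  rw [this]
  refine rd_sum _ _ fun p _ => ?_
  intro i
  rw [coeff_monomial]
  split_ifs
  · exact (natDegree_monomial_le _).trans (Nat.lt_succ_iff.1 p.2.2)
  · simp

/-- the coefficients of a polynomial -/
def cf (n m : ℕ) : ℂ[X][X] →ₗ[ℂ] (Fin n × Fin m → ℂ) where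
  toFun A p := (A.coeff (p.1 : ℕ)).coeff (p.2 : ℕ)
  map_add' A B := by
    funext p
    simp
  map_smul' z A := by
    funext p
    simp

theorem cf_zero (T S : ℕ) (A : ℂ[X][X]) (hT : A.natDegree ≤ T) (hS : rd S A)
    (h : cf (T + 1) (S + 1) A = 0) : A = 0 := by
  ext i b
  rw [coeff_zero, coeff_zero]
  by_cases hi : i ≤ T
  · by_cases hb : b ≤ S
    · exact congrFun h (⟨i, Nat.lt_succ_of_le hi⟩, ⟨b, Nat.lt_succ_of_le hb⟩)
    · exact coeff_eq_zero_of_natDegree_lt (lt_of_le_of_lt (hS i) (not_le.1 hb))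
  · rw [coeff_eq_zero_of_natDegree_lt (lt_of_le_of_lt hT (not_le.1 hi)), coeff_zero]

theorem ev_comp (A P : ℂ[X][X]) (u : ℝ) (t : ℂ) : ev (A.comp P) u t = ev A u (ev P u t) := by
  simp only [ev]
  rw [Polynomial.map_comp, eval_comp]

theorem ev_add (A P : ℂ[X][X]) (u : ℝ) (t : ℂ) : ev (A + P) u t = ev A u t + ev P u t := by
  simp only [ev]
  rw [Polynomial.map_add, eval_add]

theorem ev_mul (A P : ℂ[X][X]) (u : ℝ) (t : ℂ) : ev (A * P) u t = ev A u t * ev P u t := by
  simp only [ev]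
  rw [Polynomial.map_mul, eval_mul]

/-- **Job UM-DU.** -/
theorem t_DU : S_DU := by
  intro D e J f P hD he hP1 hP2 hf
  obtain ⟨A, hA0, hA1, hA2, hA3⟩ := hf
  obtain ⟨E, hE⟩ : ∃ E, E = 3 * e * D ^ 2 := ⟨_, rfl⟩
  obtain ⟨T, hT⟩ : ∃ T, T = e * E := ⟨_, rfl⟩
  obtain ⟨S, hS⟩ : ∃ S, S = E + e * E := ⟨_, rfl⟩
  have hDE : D ≤ E := by
    rw [hE]
    nlinarith [Nat.mul_le_mul he hD, Nat.mul_le_mul hD hD]
  have hET : E ≤ T := by
    rw [hT]
    nlinarith
  have hDT : D ≤ T := hDE.trans hET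
  have hDS : D ≤ S := by omega
  -- the linear map
  let φ : (Fin (E + 1) × Fin (E + 1) → ℂ) × (Fin (T - D + 1) × Fin (S - D + 1) → ℂ) →ₗ[ℂ]
      ℂ[X][X] :=
    { toFun := fun x => (mk _ _ x.1).comp P + A * mk _ _ x.2
      map_add' := by
        intro x y
        simp only [Prod.fst_add, Prod.snd_add, map_add, add_comp, mul_add]
        ring
      map_smul' := by
        intro z x
        simp only [Prod.smul_fst, Prod.smul_snd, map_smul, smul_comp, RingHom.id_apply, smul_add,
          mul_smul_comm] }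
  have hφ1 : ∀ x, (φ x).natDegree ≤ T := by
    intro x
    refine (natDegree_add_le _ _).trans (max_le ?_ ?_)
    · refine natDegree_comp_le.trans ?_
      have h0 : E * e = T := by rw [hT, mul_comm]
      exact (Nat.mul_le_mul (mk_nd _ _ _) hP1).trans h0.le
    · refine natDegree_mul_le.trans ?_
      have := mk_nd (T - D) (S - D + 1) x.2
      omega
  have hφ2 : ∀ x, rd S (φ x) := by
    intro x
    refine rd_add ?_ ?_
    · have := rd_comp (mk_rd (E + 1) E x.1) (mk_nd E (E + 1) x.1) hP2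
      have h0 : E + E * e = S := by rw [hS, mul_comm e E]
      exact rd_mono h0.le this
    · have := rd_mul hA2 (mk_rd (T - D + 1) (S - D) x.2)
      exact rd_mono (by omega) this
  have hker : LinearMap.ker ((cf (T + 1) (S + 1)).comp φ) ≠ ⊥ := by
    apply LinearMap.ker_ne_bot_of_finrank_lt
    rw [Module.finrank_prod, Module.finrank_fintype_fun_eq_card, Module.finrank_fintype_fun_eq_card,
      Module.finrank_fintype_fun_eq_card]
    simp only [Fintype.card_prod, Fintype.card_fin]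
    obtain ⟨T', rfl⟩ := Nat.exists_eq_add_of_le hDT
    obtain ⟨S', hS'⟩ := Nat.exists_eq_add_of_le hDS
    have e1 : D + T' - D = T' := by omega
    have e2 : S - D = S' := by omega
    rw [e1, e2, hS']
    have key : D * (D + T' + 1) + D * (S' + 1) < (E + 1) * (E + 1) := by
      have h1 : D + T' + 1 + (S' + 1) ≤ 2 * e * E + E + 2 := by
        have : S' ≤ S := by omega
        rw [hT]
        have : S' ≤ E + e * E := by omega
        nlinarith
      have h2 : D * (2 * e * E + E + 2) < (E + 1) * (E + 1) := by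
        have h3 : 3 * e * D ≤ E := by
          rw [hE]
          have : 3 * e * D * 1 ≤ 3 * e * D * D := Nat.mul_le_mul_left _ hD
          calc 3 * e * D = 3 * e * D * 1 := by ring
            _ ≤ 3 * e * D * D := this
            _ = 3 * e * D ^ 2 := by ring
        have h4 : D * (2 * e * E + E) ≤ E * E := by
          have : D * (2 * e + 1) ≤ 3 * e * D := by nlinarith
          calc D * (2 * e * E + E) = D * (2 * e + 1) * E := by ring
            _ ≤ E * E := Nat.mul_le_mul_right _ (this.trans h3)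
        have h5 : D * 2 ≤ E * 2 := Nat.mul_le_mul_right _ hDE
        nlinarith
      calc D * (D + T' + 1) + D * (S' + 1) = D * (D + T' + 1 + (S' + 1)) := by ring
        _ ≤ D * (2 * e * E + E + 2) := Nat.mul_le_mul_left _ h1
        _ < (E + 1) * (E + 1) := h2
    nlinarith
  obtain ⟨x, hx, hx0⟩ := Submodule.exists_mem_ne_zero_of_ne_bot hker
  have hφ0 : φ x = 0 := cf_zero T S _ (hφ1 x) (hφ2 x) (by
    have := LinearMap.mem_ker.1 hx
    exact this)
  have hφx : (mk (E + 1) (E + 1) x.1).comp P + A * mk (T - D + 1) (S - D + 1) x.2 = 0 := hφ0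
  have hc : mk (E + 1) (E + 1) x.1 ≠ 0 := by
    intro h0
    rw [h0, zero_comp, zero_add] at hφx
    have h1 : mk (T - D + 1) (S - D + 1) x.2 = 0 := (mul_eq_zero.1 hφx).resolve_left hA0
    exact hx0 (Prod.ext (mk_inj _ _ _ h0) (mk_inj _ _ _ h1))
  have hle : E ≤ 4 * e * D ^ 2 := by
    rw [hE]
    nlinarith [Nat.zero_le (e * D ^ 2)]
  refine ⟨mk (E + 1) (E + 1) x.1, hc, (mk_nd _ _ _).trans hle, fun i => (mk_rd _ _ _ i).trans hle,
    ?_⟩
  intro u hu
  have h1 : ev ((mk (E + 1) (E + 1) x.1).comp P + A * mk (T - D + 1) (S - D + 1) x.2) u (f u) =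
      0 := by
    rw [hφx]
    simp [ev]
  rw [ev_add, ev_mul, ev_comp] at h1
  have h2 : ev A u (f u) = 0 := hA3 u hu
  rw [h2, zero_mul, add_zero] at h1
  exact h1

end

end Pool.Agent.Q237.UM
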