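import Pool.Agent.Q62.UM.Stm2

/-! Project UM, job RC: multiplicities. -/

set_option autoImplicit false

open Polynomial Topology Filter

namespace Pool.Agent.Q237.UM

open Pool.Agent.Q62.UM

noncomputable section

/-- the polynomial in `t` at `exp u` -/
def Gu (G : ℂ[X][X]) (u : ℝ) : ℂ[X] := G.map (Polynomial.evalRingHom (Real.exp u : ℂ))

theorem ev_Gu (G : ℂ[X][X]) (u : ℝ) (t : ℂ) : ev G u t = (Gu G u).eval t := rfl

theorem Gu_nd (G : ℂ[X][X]) (u : ℝ) (h : G.leadingCoeff.eval (Real.exp u : ℂ) ≠ 0) :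
    (Gu G u).natDegree = G.natDegree :=
  natDegree_map_of_leadingCoeff_ne_zero _ h

theorem Gu_lc (G : ℂ[X][X]) (u : ℝ) (h : G.leadingCoeff.eval (Real.exp u : ℂ) ≠ 0) :
    (Gu G u).leadingCoeff = G.leadingCoeff.eval (Real.exp u : ℂ) :=
  leadingCoeff_map_of_leadingCoeff_ne_zero _ h

theorem Gu_ne (G : ℂ[X][X]) (u : ℝ) (h : G.leadingCoeff.eval (Real.exp u : ℂ) ≠ 0) :
    Gu G u ≠ 0 := by
  intro h0
  have := Gu_lc G u h
  rw [h0, leadingCoeff_zero] at this
  exact h this.symm

theorem ev_sum (A : ℂ[X][X]) (u : ℝ) (t : ℂ) :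
    ev A u t = ∑ i ∈ Finset.range (A.natDegree + 1), (A.coeff i).eval (Real.exp u : ℂ) * t ^ i := by
  unfold ev
  rw [eval_map, eval₂_eq_sum_range]
  rfl

theorem ev_cont {X : Type} [TopologicalSpace X] (A : ℂ[X][X]) (f : X → ℝ) (g : X → ℂ)
    (hf : Continuous f) (hg : Continuous g) : Continuous fun x => ev A (f x) (g x) := by
  have h : (fun x => ev A (f x) (g x)) = fun x =>
      ∑ i ∈ Finset.range (A.natDegree + 1), (A.coeff i).eval (Real.exp (f x) : ℂ) * g x ^ i := by
    funext x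
    exact ev_sum A _ _
  rw [h]
  refine continuous_finset_sum _ fun i _ => ?_
  refine Continuous.mul ?_ (hg.pow i)
  exact (A.coeff i).continuous.comp (Complex.continuous_ofReal.comp (Real.continuous_exp.comp hf))

theorem exists_idx {s : ℕ} (n : ℕ) (L : List (Fin s)) (h : L.length = n) :
    ∃ idx : Fin n → Fin s, ∀ F : Fin s → ℂ, ∏ j, F (idx j) = (L.map F).prod := by
  subst h
  exact ⟨fun j => L[j], fun F => Fin.prod_univ_fun_getElem L F⟩

/-- the multiset of indices with given multiplicities -/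
def WW {s : ℕ} (m : Fin s → ℕ) : Multiset (Fin s) := ∑ i, m i • ({i} : Multiset (Fin s))

theorem WW_count {s : ℕ} (m : Fin s → ℕ) (i : Fin s) : (WW m).count i = m i := by
  classical
  unfold WW
  rw [Multiset.count_sum', Finset.sum_eq_single i]
  · simp
  · intro j _ hj
    rw [Multiset.count_nsmul, Multiset.count_singleton, if_neg (Ne.symm hj), mul_zero]
  · intro h
    exact absurd (Finset.mem_univ i) h

theorem WW_card {s : ℕ} (m : Fin s → ℕ) : (WW m).card = ∑ i, m i := by
  unfold WW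
  rw [Multiset.card_sum]
  simp

theorem roots_eq {s : ℕ} (p : ℂ[X]) (hp : p ≠ 0) (τ : Fin s → ℂ) (hi : Function.Injective τ)
    (hr : ∀ t, p.eval t = 0 ↔ ∃ i, τ i = t) :
    p.roots = (WW fun i => p.rootMultiplicity (τ i)).map τ := by
  classical
  ext t
  rw [count_roots]
  by_cases ht : ∃ i, τ i = t
  · obtain ⟨i, rfl⟩ := ht
    rw [Multiset.count_map_eq_count' τ _ hi, WW_count]
  · rw [Multiset.count_eq_zero_of_notMem, rootMultiplicity_eq_zero]
    · intro h
      exact ht ((hr t).1 h)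
    · intro h
      obtain ⟨i, _, hi'⟩ := Multiset.mem_map.1 h
      exact ht ⟨i, hi'⟩

/-- **Job UM-RC.** -/
theorem t_RC : S_RC := by
  intro G I s σ hI hne hlc hσ hinj hroot
  -- the multiplicities
  let m : I → Fin s → ℕ := fun u i => (Gu G u).rootMultiplicity (σ i u)
  have hsum : ∀ u : I, ∑ i, m u i = G.natDegree := by
    intro u
    have h1 := roots_eq (Gu G u) (Gu_ne G u (hlc u u.2)) (fun i => σ i u) (hinj u u.2)
      (hroot u u.2)
    rw [← Gu_nd G u (hlc u u.2), (IsAlgClosed.splits (Gu G u)).natDegree_eq_card_roots, h1,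
      Multiset.card_map, WW_card]
  have hcont : ∀ (A : ℂ[X][X]) (i : Fin s), Continuous fun u : I => ev A u (σ i u) := by
    intro A i
    exact ev_cont A (fun u : I => (u : ℝ)) (fun u : I => σ i u) continuous_subtype_val
      (continuousOn_iff_continuous_restrict.1 (hσ i))
  have husc : ∀ (u : I) (i : Fin s), ∀ᶠ v in 𝓝 u, m v i ≤ m u i := by
    intro u i
    have h1 : ¬ m u i < (Gu G u).rootMultiplicity (σ i u) := lt_irrefl _
    rw [lt_rootMultiplicity_iff_isRoot_iterate_derivative (Gu_ne G u (hlc u u.2))] at h1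
    push Not at h1
    obtain ⟨k, hk, hk2⟩ := h1
    have h2 : ∀ v : I, (derivative^[k] (Gu G v)).eval (σ i v) = ev (derivative^[k] G) v (σ i v) := by
      intro v
      unfold Gu
      rw [iterate_derivative_map]
      rfl
    have h3 : ∀ᶠ v : I in 𝓝 u, ev (derivative^[k] G) v (σ i v) ≠ 0 := by
      apply (hcont (derivative^[k] G) i).continuousAt.eventually_ne
      rw [← h2 u]
      exact hk2
    filter_upwards [h3] with v hv
    by_contra hlt
    push Not at hlt
    have h4 := (lt_rootMultiplicity_iff_isRoot_iterate_derivative (Gu_ne G v (hlc v v.2))).1 hlt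
      k hk
    apply hv
    rw [← h2 v]
    exact h4
  have hloc : IsLocallyConstant m := by
    rw [IsLocallyConstant.iff_eventually_eq]
    intro u
    have h1 : ∀ᶠ v in 𝓝 u, ∀ i, m v i ≤ m u i := eventually_all.2 fun i => husc u i
    filter_upwards [h1] with v hv
    funext i
    by_contra hne
    have h2 : ∑ i, m v i < ∑ i, m u i :=
      Finset.sum_lt_sum (fun i _ => hv i) ⟨i, Finset.mem_univ i, lt_of_le_of_ne (hv i) hne⟩
    rw [hsum v, hsum u] at h2
    exact lt_irrefl _ h2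
  haveI : PreconnectedSpace I := Subtype.preconnectedSpace hI.2.isPreconnected
  obtain ⟨u0, hu0⟩ := hne
  obtain ⟨L, hL⟩ : ∃ L : List (Fin s), (L : Multiset (Fin s)) = WW (m ⟨u0, hu0⟩) :=
    ⟨(WW (m ⟨u0, hu0⟩)).toList, Multiset.coe_toList _⟩
  have hlen : L.length = G.natDegree := by
    rw [← hsum ⟨u0, hu0⟩, ← WW_card, ← hL, Multiset.coe_card]
  obtain ⟨idx, hidx⟩ := exists_idx G.natDegree L hlen
  refine ⟨fun j => σ (idx j), fun j => ⟨idx j, rfl⟩, ?_⟩
  intro u hu t
  have hm : m ⟨u, hu⟩ = m ⟨u0, hu0⟩ := hloc.apply_eq_of_preconnectedSpace _ _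
  rw [ev_Gu, (IsAlgClosed.splits (Gu G u)).eval_eq_prod_roots, Gu_lc G u (hlc u hu),
    roots_eq (Gu G u) (Gu_ne G u (hlc u hu)) (fun i => σ i u) (hinj u hu) (hroot u hu)]
  congr 1
  have hm' : (fun i => (Gu G u).rootMultiplicity (σ i u)) = m ⟨u0, hu0⟩ := hm
  rw [hm', ← hL, hidx (fun i => t - σ i u)]
  simp only [Multiset.map_coe, List.map_map, Multiset.prod_coe]
  rfl

end

end Pool.Agent.Q237.UM
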