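import Pool.Agent.Q237.UM.DU
import Pool.Agent.Q237.UM.RC

/-! Project UM, job RA: the squarefree part. -/

set_option autoImplicit false

open Polynomial

namespace Pool.Agent.Q237.UM

open Pool.Agent.Q62.UM

noncomputable section

/-! ### the degree in the inner variable of a divisor -/

theorem swap_coeff (A : ℂ[X][X]) (i b : ℕ) :
    ((Bivariate.swap A).coeff b).coeff i = (A.coeff i).coeff b := by
  induction A using Polynomial.induction_on' with
  | add A B hA hB => simp only [map_add, coeff_add, hA, hB]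
  | monomial n f =>
    induction f using Polynomial.induction_on' with
    | add f g hf hg =>
      simp only [map_add, coeff_add, hf, hg]
    | monomial m r =>
      rw [Bivariate.swap_monomial_monomial]
      simp only [coeff_monomial]
      split_ifs <;> simp_all [coeff_monomial]

theorem rd_iff (A : ℂ[X][X]) (n : ℕ) : rd n A ↔ (Bivariate.swap A).natDegree ≤ n := by
  constructor
  · intro h
    rw [natDegree_le_iff_coeff_eq_zero]
    intro b hb
    ext i
    rw [swap_coeff, coeff_zero]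
    exact coeff_eq_zero_of_natDegree_lt (lt_of_le_of_lt (h i) hb)
  · intro h i
    rw [natDegree_le_iff_coeff_eq_zero]
    intro b hb
    rw [← swap_coeff, coeff_eq_zero_of_natDegree_lt (lt_of_le_of_lt h hb), coeff_zero]

theorem rd_dvd (A G : ℂ[X][X]) (n : ℕ) (hG : G ≠ 0) (h : A ∣ G) (hr : rd n G) : rd n A := by
  obtain ⟨B, rfl⟩ := h
  rw [rd_iff] at hr ⊢
  have hA : Bivariate.swap A ≠ 0 := by
    intro h0
    apply hG
    rw [(map_eq_zero_iff Bivariate.swap Bivariate.swap.injective).1 h0, zero_mul]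
  have hB : Bivariate.swap B ≠ 0 := by
    intro h0
    apply hG
    rw [(map_eq_zero_iff Bivariate.swap Bivariate.swap.injective).1 h0, mul_zero]
  rw [map_mul, natDegree_mul hA hB] at hr
  omega

theorem lc_dvd (A G : ℂ[X][X]) (h : A ∣ G) : A.leadingCoeff ∣ G.leadingCoeff := by
  obtain ⟨B, rfl⟩ := h
  rw [leadingCoeff_mul]
  exact dvd_mul_right _ _

/-! ### squarefree divisors -/

theorem sqf_dvd (V : ℂ[X][X]) : ∀ R : ℂ[X][X], Squarefree R →
    (∀ S : ℂ[X][X], Irreducible S → S ∣ R → S ∣ V) → R ∣ V := by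
  intro R
  induction R using WfDvdMonoid.induction_on_irreducible with
  | zero =>
    intro h
    exact absurd h not_squarefree_zero
  | unit u hu =>
    intro _ _
    exact hu.dvd
  | mul T S hT hS ih =>
    intro h1 h2
    have hTs : Squarefree T := h1.squarefree_of_dvd (dvd_mul_left _ _)
    obtain ⟨W, hW⟩ := ih hTs fun P hP hPT => h2 P hP (hPT.trans (dvd_mul_left _ _))
    have hSV := h2 S hS (dvd_mul_right _ _)
    rw [hW] at hSV ⊢
    rcases hS.prime.dvd_or_dvd hSV with h | h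
    · exfalso
      have : S * S ∣ S * T := mul_dvd_mul_left _ h
      exact hS.not_isUnit (h1 S this)
    · rw [mul_comm]
      exact mul_dvd_mul_left _ h

/-- the minimal divisor -/
theorem exists_min (G : ℂ[X][X]) (hG : G ≠ 0) : ∃ R : ℂ[X][X], R ∣ G ∧
    (∃ k : ℕ, G ∣ (C G.leadingCoeff * R) ^ k) ∧ Squarefree R ∧
    ∀ S : ℂ[X][X], Irreducible S → S ∣ R → S.natDegree ≠ 0 := by
  obtain ⟨R, ⟨hR1, k, hR2⟩, hmin⟩ := (wellFounded_dvdNotUnit (α := ℂ[X][X])).has_min
    {R | R ∣ G ∧ ∃ k : ℕ, G ∣ (C G.leadingCoeff * R) ^ k}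
    ⟨G, dvd_refl G, 1, by rw [pow_one]; exact dvd_mul_left _ _⟩
  have hR0 : R ≠ 0 := by
    rintro rfl
    exact hG (zero_dvd_iff.1 hR1)
  have hkey : ∀ S T : ℂ[X][X], ¬ IsUnit S → R = S * T →
      (C G.leadingCoeff * R ∣ (C G.leadingCoeff * T) ^ 2) → False := by
    intro S T hS hRT hd
    have hT0 : T ≠ 0 := by
      rintro rfl
      rw [mul_zero] at hRT
      exact hR0 hRT
    refine hmin T ⟨(Dvd.intro_left S hRT.symm).trans hR1, 2 * k, ?_⟩
      ⟨hT0, S, hS, by rw [hRT, mul_comm]⟩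
    rw [pow_mul]
    exact hR2.trans (pow_dvd_pow_of_dvd hd k)
  refine ⟨R, hR1, ⟨k, hR2⟩, ?_, ?_⟩
  · intro S hS
    by_contra hu
    obtain ⟨T', hT'⟩ := hS
    apply hkey S (S * T') hu (by rw [hT']; ring)
    rw [hT']
    exact ⟨C G.leadingCoeff * T', by ring⟩
  · intro S hS hSR h0
    obtain ⟨T, hT⟩ := hSR
    apply hkey S T hS.not_isUnit hT
    have h1 : S.leadingCoeff ∣ G.leadingCoeff :=
      lc_dvd S G ((Dvd.intro T hT.symm).trans hR1)
    have h2 : S = C S.leadingCoeff := by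
      rw [leadingCoeff, h0]
      exact eq_C_of_natDegree_eq_zero h0
    obtain ⟨r, hr⟩ := h1
    rw [hT]
    have h3 : C G.leadingCoeff = S * C r := by
      rw [hr, C_mul, ← h2]
    exact ⟨C r * T, by
      rw [h3]
      ring⟩

theorem nondeg (R V : ℂ[X][X]) (hR : Squarefree R)
    (hS : ∀ S : ℂ[X][X], Irreducible S → S ∣ R → S.natDegree ≠ 0)
    (hV : V.natDegree < R.natDegree) (h : R ∣ V * derivative R) : V = 0 := by
  have h1 : R ∣ V := by
    refine sqf_dvd V R hR fun S hSi hSR => ?_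
    obtain ⟨T, hT⟩ := hSR
    have hp := hSi.prime
    have h2 : S ∣ V * derivative R := (Dvd.intro T hT.symm).trans h
    rcases hp.dvd_or_dvd h2 with h3 | h3
    · exact h3
    · exfalso
      rw [hT, derivative_mul] at h3
      have h4 : S ∣ derivative S * T := (dvd_add_left (dvd_mul_right S _)).1 h3
      rcases hp.dvd_or_dvd h4 with h5 | h5
      · have hnd := hS S hSi (Dvd.intro T hT.symm)
        have hne : derivative S ≠ 0 := by
          intro h0
          exact hnd (natDegree_eq_zero_of_derivative_eq_zero h0)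
        have h6 := natDegree_le_of_dvd h5 hne
        have h7 := natDegree_derivative_lt hnd
        omega
      · have : S * S ∣ R := by
          rw [hT]
          exact mul_dvd_mul_left _ h5
        exact hSi.not_isUnit (hR S this)
  by_contra hV0
  have := natDegree_le_of_dvd h1 hV0
  omega

/-- zeros of a polynomial in `exp u` -/
theorem zeros_exp (p : ℂ[X]) (hp : p ≠ 0) : ∃ Z : Finset ℝ, Z.card ≤ p.natDegree ∧
    ∀ u ∉ Z, p.eval (Real.exp u : ℂ) ≠ 0 := by
  classical
  refine ⟨p.roots.toFinset.image fun z => Real.log z.re, ?_, ?_⟩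
  · exact Finset.card_image_le.trans ((Multiset.toFinset_card_le _).trans (card_roots' p))
  · intro u hu h0
    apply hu
    rw [Finset.mem_image]
    refine ⟨(Real.exp u : ℂ), ?_, ?_⟩
    · rw [Multiset.mem_toFinset, mem_roots hp]
      exact h0
    · rw [Complex.ofReal_re, Real.log_exp]

/-- a combination of `R` and its derivative which does not depend on `t` -/
theorem bezout (R : ℂ[X][X]) (d D : ℕ) (hd : R.natDegree = d + 1) (hr : rd D R)
    (hnd : ∀ V : ℂ[X][X], V.natDegree < R.natDegree → R ∣ V * derivative R → V = 0) :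
    ∃ (U V : ℂ[X][X]) (ρ : ℂ[X]), ρ ≠ 0 ∧ ρ.natDegree ≤ 2 * (d + 1) * D ∧
      U * R + V * derivative R = C ρ := by
  obtain ⟨s, hs⟩ : ∃ s, s = (2 * d + 1) * D := ⟨_, rfl⟩
  obtain ⟨S, hS⟩ : ∃ S, S = s + D := ⟨_, rfl⟩
  have hS' : S = 2 * (d + 1) * D := by rw [hS, hs]; ring
  have hR' : rd D (derivative R) := by
    intro i
    rw [coeff_derivative]
    have h1 : ((i : ℂ[X]) + 1).natDegree = 0 := by
      have : ((i : ℂ[X]) + 1) = ((i + 1 : ℕ) : ℂ[X]) := by push_cast; ring
      rw [this]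
      exact natDegree_natCast _
    exact natDegree_mul_le.trans (by rw [h1, add_zero]; exact hr _)
  have hdR : (derivative R).natDegree ≤ d := by
    have := natDegree_derivative_le R
    omega
  let φ : ((Fin (d + 1) × Fin (s + 1) → ℂ) × (Fin (d + 1) × Fin (s + 1) → ℂ)) ×
      (Fin 1 × Fin (S + 1) → ℂ) →ₗ[ℂ] ℂ[X][X] :=
    { toFun := fun x => mk _ _ x.1.1 * R + mk _ _ x.1.2 * derivative R - mk _ _ x.2
      map_add' := by
        intro x y
        simp only [Prod.fst_add, Prod.snd_add, map_add, add_mul]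
        ring
      map_smul' := by
        intro z x
        simp only [Prod.smul_fst, Prod.smul_snd, map_smul, RingHom.id_apply, smul_sub, smul_add,
          smul_mul_assoc] }
  have hφ1 : ∀ x, (φ x).natDegree ≤ 2 * d + 1 := by
    intro x
    refine (natDegree_sub_le _ _).trans (max_le ((natDegree_add_le _ _).trans (max_le ?_ ?_)) ?_)
    · refine natDegree_mul_le.trans ?_
      have := mk_nd d (s + 1) x.1.1
      omega
    · refine natDegree_mul_le.trans ?_
      have := mk_nd d (s + 1) x.1.2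
      omega
    · exact (mk_nd 0 (S + 1) x.2).trans (by omega)
  have hφ2 : ∀ x, rd S (φ x) := by
    intro x
    have h1 := rd_mul (mk_rd (d + 1) s x.1.1) hr
    have h2 := rd_mul (mk_rd (d + 1) s x.1.2) hR'
    have h3 := rd_neg (mk_rd 1 S x.2)
    rw [← hS] at h1 h2
    have h4 := rd_add (rd_add h1 h2) h3
    rw [← sub_eq_add_neg] at h4
    exact h4
  have hker : LinearMap.ker ((cf (2 * d + 1 + 1) (S + 1)).comp φ) ≠ ⊥ := by
    apply LinearMap.ker_ne_bot_of_finrank_lt
    rw [Module.finrank_prod, Module.finrank_prod, Module.finrank_fintype_fun_eq_card,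
      Module.finrank_fintype_fun_eq_card, Module.finrank_fintype_fun_eq_card]
    simp only [Fintype.card_prod, Fintype.card_fin]
    have h1 : (2 * d + 1 + 1) * (S + 1) = (d + 1) * (s + 1) + (d + 1) * (s + 1) +
        2 * (d + 1) * D := by
      rw [hS]; ring
    rw [h1, ← hS']
    omega
  obtain ⟨x, hx, hx0⟩ := Submodule.exists_mem_ne_zero_of_ne_bot hker
  have hφ0 : φ x = 0 := cf_zero _ S _ (hφ1 x) (hφ2 x) (LinearMap.mem_ker.1 hx)
  have hφx : mk (d + 1) (s + 1) x.1.1 * R + mk (d + 1) (s + 1) x.1.2 * derivative R -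
    mk 1 (S + 1) x.2 = 0 := hφ0
  have hC : mk 1 (S + 1) x.2 = C ((mk 1 (S + 1) x.2).coeff 0) :=
    eq_C_of_natDegree_le_zero (mk_nd 0 (S + 1) x.2)
  refine ⟨mk (d + 1) (s + 1) x.1.1, mk (d + 1) (s + 1) x.1.2, (mk 1 (S + 1) x.2).coeff 0, ?_, ?_, ?_⟩
  · intro h0
    rw [h0, C_0] at hC
    rw [hC, sub_zero] at hφx
    have hR0 : R ≠ 0 := by
      rintro rfl
      simp at hd
    have hV : mk (d + 1) (s + 1) x.1.2 = 0 := by
      apply hnd
      · have := mk_nd d (s + 1) x.1.2
        omega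
      · refine ⟨-mk (d + 1) (s + 1) x.1.1, ?_⟩
        linear_combination hφx
    rw [hV, zero_mul, add_zero] at hφx
    have hU : mk (d + 1) (s + 1) x.1.1 = 0 := (mul_eq_zero.1 hφx).resolve_right hR0
    exact hx0 (Prod.ext (Prod.ext (mk_inj _ _ _ hU) (mk_inj _ _ _ hV)) (mk_inj _ _ _ hC))
  · rw [← hS']
    exact mk_rd 1 S x.2 0
  · rw [← hC]
    linear_combination hφx

/-- **Job UM-RA.** -/
theorem t_RA : S_RA := by
  classical
  intro D G hD hG0 hG1 hG2
  obtain ⟨R, hRG, ⟨k, hk⟩, hsq, hirr⟩ := exists_min G hG0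
  have hR1 : R.natDegree ≤ D := (natDegree_le_of_dvd hRG hG0).trans hG1
  have hRr : rd D R := rd_dvd R G D hG0 hRG hG2
  obtain ⟨Z1, hZ1, hZ1'⟩ := zeros_exp G.leadingCoeff (leadingCoeff_ne_zero.2 hG0)
  have hZ1D : Z1.card ≤ D := hZ1.trans (hG2 _)
  -- consequences of `γ ≠ 0`
  have hcon : ∀ u ∉ Z1, R.leadingCoeff.eval (Real.exp u : ℂ) ≠ 0 ∧
      G.leadingCoeff.eval (Real.exp u : ℂ) ≠ 0 ∧ (∀ t, ev R u t = 0 ↔ ev G u t = 0) := by
    intro u hu
    have hγ := hZ1' u hu
    refine ⟨?_, hγ, fun t => ⟨?_, ?_⟩⟩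
    · obtain ⟨q, hq⟩ := lc_dvd R G hRG
      intro h0
      apply hγ
      rw [hq, eval_mul, h0, zero_mul]
    · intro h0
      obtain ⟨Q, hQ⟩ := hRG
      rw [hQ, ev_mul, h0, zero_mul]
    · intro h0
      obtain ⟨Q, hQ⟩ := hk
      have h1 : ev ((C G.leadingCoeff * R) ^ k) u t = 0 := by
        rw [hQ, ev_mul, h0, zero_mul]
      have h2 : ev ((C G.leadingCoeff * R) ^ k) u t =
          (G.leadingCoeff.eval (Real.exp u : ℂ) * ev R u t) ^ k := by
        simp [ev, Polynomial.map_pow, eval_pow]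
      rw [h2] at h1
      exact (mul_eq_zero.1 (eq_zero_of_pow_eq_zero h1)).resolve_left hγ
  rcases Nat.eq_zero_or_pos R.natDegree with hd | hd
  · refine ⟨R, Z1, hR1, hZ1D.trans (by nlinarith), fun u hu => ?_⟩
    obtain ⟨h1, h2, h3⟩ := hcon u hu
    refine ⟨h1, h2, fun t ht => ?_, h3⟩
    exfalso
    apply h1
    have h4 : R = C R.leadingCoeff := by
      rw [leadingCoeff, hd]
      exact eq_C_of_natDegree_eq_zero hd
    rw [h4] at ht
    simpa [ev] using ht
  · obtain ⟨d, hd'⟩ : ∃ d, R.natDegree = d + 1 := ⟨R.natDegree - 1, by omega⟩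
    obtain ⟨U, V, ρ, hρ0, hρ1, hρ2⟩ := bezout R d D hd' hRr fun V hV h => nondeg R V hsq hirr hV h
    obtain ⟨Z2, hZ2, hZ2'⟩ := zeros_exp ρ hρ0
    refine ⟨R, Z1 ∪ Z2, hR1, ?_, fun u hu => ?_⟩
    · refine (Finset.card_union_le _ _).trans ?_
      have h1 : 2 * (d + 1) * D ≤ 2 * D * D := by
        rw [hd'] at hR1
        exact Nat.mul_le_mul_right _ (Nat.mul_le_mul_left _ hR1)
      nlinarith
    · rw [Finset.mem_union, not_or] at hu
      obtain ⟨h1, h2, h3⟩ := hcon u hu.1
      refine ⟨h1, h2, fun t ht ht' => ?_, h3⟩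
      apply hZ2' u hu.2
      have h4 : ev (U * R + V * derivative R) u t = ρ.eval (Real.exp u : ℂ) := by
        rw [hρ2]
        simp [ev]
      rw [← h4, ev_add, ev_mul, ev_mul, ht, ht']
      simp

end

end Pool.Agent.Q237.UM
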