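import Pool.Agent.Q237.UM.RC

/-! Project UM, job RB: branches of simple roots (by covering maps). -/

set_option autoImplicit false

open Polynomial Topology Filter

namespace Pool.Agent.Q237.UM

open Pool.Agent.Q62.UM

noncomputable section

theorem norm_prod_ge (S : Multiset ℂ) (t0 : ℂ) (ε : ℝ) (hε : 0 ≤ ε)
    (h : ∀ r ∈ S, ε ≤ ‖t0 - r‖) : ε ^ S.card ≤ ‖(S.map (t0 - ·)).prod‖ := by
  induction S using Multiset.induction_on with
  | empty => simp
  | cons a S ih =>
    rw [Multiset.card_cons, Multiset.map_cons, Multiset.prod_cons, norm_mul, pow_succ, mul_comm]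
    exact mul_le_mul (h a (Multiset.mem_cons_self _ _))
      (ih fun r hr => h r (Multiset.mem_cons_of_mem hr)) (by positivity) (norm_nonneg _)

theorem near_root (p : ℂ[X]) (t0 : ℂ) (ε : ℝ) (hε : 0 < ε)
    (h : ‖p.eval t0‖ < ‖p.leadingCoeff‖ * ε ^ p.natDegree) :
    ∃ t, p.eval t = 0 ∧ ‖t - t0‖ < ε := by
  by_contra hc
  push Not at hc
  have hp : p ≠ 0 := by
    rintro rfl
    simp at h
  have h1 : ∀ r ∈ p.roots, ε ≤ ‖t0 - r‖ := fun r hr => by
    rw [norm_sub_rev]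
    exact hc r ((mem_roots hp).1 hr)
  have h2 := norm_prod_ge p.roots t0 ε hε.le h1
  have h3 : ‖p.eval t0‖ = ‖p.leadingCoeff‖ * ‖(p.roots.map (t0 - ·)).prod‖ := by
    rw [(IsAlgClosed.splits p).eval_eq_prod_roots, norm_mul]
  rw [h3, (IsAlgClosed.splits p).natDegree_eq_card_roots] at h
  exact absurd h (not_lt.2 (mul_le_mul_of_nonneg_left h2 (norm_nonneg _)))

theorem near2 (R : ℂ[X][X]) (I : Set ℝ)
    (hlc : ∀ u ∈ I, R.leadingCoeff.eval (Real.exp u : ℂ) ≠ 0) (u0 : I) (t0 : ℂ)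
    (h0 : ev R u0 t0 = 0) (ε : ℝ) (hε : 0 < ε) :
    ∀ᶠ u : I in 𝓝 u0, ∃ t, ev R u t = 0 ∧ ‖t - t0‖ < ε := by
  have hc1 : Continuous fun u : I => ‖ev R u t0‖ :=
    (ev_cont R (fun u : I => (u : ℝ)) (fun _ : I => t0) continuous_subtype_val
      continuous_const).norm
  have hc2 : Continuous fun u : I =>
      ‖R.leadingCoeff.eval (Real.exp u : ℂ)‖ * ε ^ R.natDegree := by
    refine Continuous.mul (Continuous.norm ?_) continuous_const
    exact R.leadingCoeff.continuous.comp (Complex.continuous_ofReal.comp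
      (Real.continuous_exp.comp continuous_subtype_val))
  have hlt : ‖ev R u0 t0‖ < ‖R.leadingCoeff.eval (Real.exp u0 : ℂ)‖ * ε ^ R.natDegree := by
    rw [h0, norm_zero]
    exact mul_pos (norm_pos_iff.2 (hlc u0 u0.2)) (pow_pos hε _)
  filter_upwards [(hc1.tendsto u0).eventually_lt (hc2.tendsto u0) hlt] with u hu
  apply near_root (Gu R u) t0 ε hε
  rw [Gu_nd R u (hlc u u.2), Gu_lc R u (hlc u u.2)]
  exact hu

theorem card_roots_eq (R : ℂ[X][X]) (u : ℝ) (hlc : R.leadingCoeff.eval (Real.exp u : ℂ) ≠ 0)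
    (hs : ∀ t, ev R u t = 0 → ev R.derivative u t ≠ 0) :
    (Gu R u).roots.toFinset.card = R.natDegree := by
  have hp := Gu_ne R u hlc
  have hn : (Gu R u).roots.Nodup := by
    rw [Multiset.nodup_iff_count_le_one]
    intro t
    rw [count_roots]
    by_contra hlt
    push Not at hlt
    have h1 := (one_lt_rootMultiplicity_iff_isRoot hp).1 hlt
    apply hs t h1.1
    have h2 : ev R.derivative u t = (Gu R u).derivative.eval t := by
      unfold Gu
      rw [derivative_map]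
      rfl
    rw [h2]
    exact h1.2
  rw [Multiset.toFinset_card_of_nodup hn, ← (IsAlgClosed.splits _).natDegree_eq_card_roots,
    Gu_nd R u hlc]

theorem fin_surj (R : ℂ[X][X]) (u : ℝ) (hlc : R.leadingCoeff.eval (Real.exp u : ℂ) ≠ 0)
    (hs : ∀ t, ev R u t = 0 → ev R.derivative u t ≠ 0) (τ : Fin R.natDegree → ℂ)
    (hτ : Function.Injective τ) (h0 : ∀ i, ev R u (τ i) = 0) (t : ℂ) :
    ev R u t = 0 ↔ ∃ i, τ i = t := by
  classical
  constructor
  · intro ht
    have hp := Gu_ne R u hlc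
    have h1 : Finset.univ.image τ ⊆ (Gu R u).roots.toFinset := by
      intro x hx
      obtain ⟨i, _, rfl⟩ := Finset.mem_image.1 hx
      rw [Multiset.mem_toFinset, mem_roots hp]
      exact h0 i
    have h2 : Finset.univ.image τ = (Gu R u).roots.toFinset := by
      apply Finset.eq_of_subset_of_card_le h1
      rw [card_roots_eq R u hlc hs, Finset.card_image_of_injective _ hτ, Finset.card_univ,
        Fintype.card_fin]
    have h3 : t ∈ Finset.univ.image τ := by
      rw [h2, Multiset.mem_toFinset, mem_roots hp]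
      exact ht
    obtain ⟨i, _, hi⟩ := Finset.mem_image.1 h3
    exact ⟨i, hi⟩
  · rintro ⟨i, rfl⟩
    exact h0 i

theorem enum_roots (R : ℂ[X][X]) (u : ℝ) (hlc : R.leadingCoeff.eval (Real.exp u : ℂ) ≠ 0)
    (hs : ∀ t, ev R u t = 0 → ev R.derivative u t ≠ 0) :
    ∃ r : Fin R.natDegree → ℂ, Function.Injective r ∧ ∀ i, ev R u (r i) = 0 := by
  have hp := Gu_ne R u hlc
  let e := (Finset.equivFinOfCardEq (card_roots_eq R u hlc hs)).symm
  refine ⟨fun i => (e i : ℂ), Subtype.val_injective.comp e.injective, fun i => ?_⟩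
  have := (e i).2
  rw [Multiset.mem_toFinset, mem_roots hp] at this
  exact this

/-- the space of the roots -/
def EE (R : ℂ[X][X]) (I : Set ℝ) : Type := {p : I × ℂ // ev R p.1 p.2 = 0}

instance (R : ℂ[X][X]) (I : Set ℝ) : TopologicalSpace (EE R I) :=
  inferInstanceAs (TopologicalSpace {p : I × ℂ // ev R p.1 p.2 = 0})

/-- the projection -/
def pr (R : ℂ[X][X]) (I : Set ℝ) (e : EE R I) : I := e.1.1

theorem pr_cont (R : ℂ[X][X]) (I : Set ℝ) : Continuous (pr R I) :=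
  continuous_fst.comp continuous_subtype_val

theorem snd_cont (R : ℂ[X][X]) (I : Set ℝ) : Continuous fun e : EE R I => e.1.2 :=
  continuous_snd.comp continuous_subtype_val

theorem pr_open (R : ℂ[X][X]) (I : Set ℝ)
    (hlc : ∀ u ∈ I, R.leadingCoeff.eval (Real.exp u : ℂ) ≠ 0) : IsOpenMap (pr R I) := by
  rw [isOpenMap_iff_nhds_le]
  rintro ⟨⟨u1, t1⟩, h1⟩
  intro S hS
  rw [mem_map] at hS
  obtain ⟨O, hO, hO2⟩ := mem_nhds_subtype _ _ _ |>.1 hS
  rw [nhds_prod_eq, mem_prod_iff] at hO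
  obtain ⟨A, hA, B, hB, hAB⟩ := hO
  obtain ⟨ε, hε, hB2⟩ := Metric.mem_nhds_iff.1 hB
  filter_upwards [hA, near2 R I hlc u1 t1 h1 ε hε] with u hu hu2
  obtain ⟨t, ht, ht2⟩ := hu2
  have hmem : ((⟨(u, t), ht⟩ : {p : I × ℂ // ev R p.1 p.2 = 0})) ∈ pr R I ⁻¹' S := by
    apply hO2
    apply hAB
    refine ⟨hu, hB2 ?_⟩
    rw [Metric.mem_ball, dist_eq_norm]
    exact ht2
  exact hmem

theorem pr_cover (R : ℂ[X][X]) (I : Set ℝ) (hd : 0 < R.natDegree)
    (hlc : ∀ u ∈ I, R.leadingCoeff.eval (Real.exp u : ℂ) ≠ 0)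
    (hs : ∀ u ∈ I, ∀ t, ev R u t = 0 → ev R.derivative u t ≠ 0) : IsCoveringMap (pr R I) := by
  intro u0
  obtain ⟨r, hr, hr0⟩ := enum_roots R u0 (hlc u0 u0.2) (hs u0 u0.2)
  haveI : Nonempty (Fin R.natDegree) := ⟨⟨0, hd⟩⟩
  haveI : Nonempty (I → EE R I) := ⟨fun _ => ⟨(u0, r ⟨0, hd⟩), hr0 _⟩⟩
  -- separation
  obtain ⟨ε, hε, hsep⟩ : ∃ ε > 0, ∀ i j, i ≠ j → 2 * ε ≤ ‖r i - r j‖ := by
    have h1 : ∀ᶠ ε : ℝ in 𝓝[>] 0, ∀ i j, i ≠ j → 2 * ε ≤ ‖r i - r j‖ := by
      rw [eventually_all]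
      intro i
      rw [eventually_all]
      intro j
      by_cases hij : i = j
      · exact Eventually.of_forall fun _ h => absurd hij h
      · have hpos : 0 < ‖r i - r j‖ := norm_pos_iff.2 (sub_ne_zero.2 fun h => hij (hr h))
        have h2 : ∀ᶠ ε : ℝ in 𝓝[>] 0, ε < ‖r i - r j‖ / 2 :=
          mem_nhdsWithin_of_mem_nhds (Iio_mem_nhds (by positivity))
        filter_upwards [h2] with ε hε _
        linarith
    obtain ⟨ε, h2, h3⟩ := (h1.and self_mem_nhdsWithin).exists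
    exact ⟨ε, h3, h2⟩
  have hex : ∀ᶠ u : I in 𝓝 u0, ∀ i, ∃ t, ev R u t = 0 ∧ ‖t - r i‖ < ε :=
    eventually_all.2 fun i => near2 R I hlc u0 (r i) (hr0 i) ε hε
  obtain ⟨V, hV, hVo, huV⟩ := eventually_nhds_iff.1 hex
  -- uniqueness in the balls
  have hdis : ∀ (t : ℂ) (i j : Fin R.natDegree), ‖t - r i‖ < ε → ‖t - r j‖ < ε → i = j := by
    intro t i j h1 h2
    by_contra hij
    have h3 := hsep i j hij
    have h4 : ‖r i - r j‖ ≤ ‖t - r j‖ + ‖t - r i‖ := by
      have : r i - r j = (t - r j) - (t - r i) := by ring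
      rw [this]
      exact norm_sub_le _ _
    linarith
  have huniq : ∀ u : I, u ∈ V → (∀ t, ev R u t = 0 → ∃ i, ‖t - r i‖ < ε) ∧
      ∀ (i : Fin R.natDegree) (t t' : ℂ), ev R u t = 0 → ev R u t' = 0 → ‖t - r i‖ < ε →
        ‖t' - r i‖ < ε → t = t' := by
    intro u hu
    choose τ hτ1 hτ2 using hV u hu
    have hτ : Function.Injective τ := by
      intro i j hij
      have := hτ2 j
      rw [← hij] at this
      exact hdis _ i j (hτ2 i) this
    have hsur := fin_surj R u (hlc u u.2) (hs u u.2) τ hτ hτ1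
    refine ⟨fun t ht => ?_, fun i t t' h1 h2 h3 h4 => ?_⟩
    · obtain ⟨i, rfl⟩ := (hsur t).1 ht
      exact ⟨i, hτ2 i⟩
    · obtain ⟨j, rfl⟩ := (hsur t).1 h1
      obtain ⟨k, rfl⟩ := (hsur t').1 h2
      have e1 := hdis _ i j h3 (hτ2 j)
      have e2 := hdis _ i k h4 (hτ2 k)
      rw [← e1, ← e2]
  have hop := pr_open R I hlc
  let U : Fin R.natDegree → Set (EE R I) := fun i => {e | pr R I e ∈ V ∧ ‖e.1.2 - r i‖ < ε}
  have hUo : ∀ i, IsOpen (U i) := fun i =>
    (hVo.preimage (pr_cont R I)).inter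
      (isOpen_lt ((snd_cont R I).sub continuous_const).norm continuous_const)
  let T := hVo.trivializationDiscrete (f := pr R I) U V
    (fun i W hW => ⟨fun h => (h.preimage (pr_cont R I)).inter (hUo i), fun h => by
      have h1 : pr R I '' (pr R I ⁻¹' W ∩ U i) = W := by
        apply Set.Subset.antisymm
        · rintro _ ⟨e, he, rfl⟩
          exact he.1
        · intro u hu
          obtain ⟨t, ht, ht2⟩ := hV u (hW hu) i
          exact ⟨⟨(u, t), ht⟩, ⟨hu, hW hu, ht2⟩, rfl⟩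
      rw [← h1]
      exact hop _ h⟩)
    (fun i => by
      rintro ⟨⟨u, t⟩, h⟩ ⟨hu, ht⟩ ⟨⟨u', t'⟩, h'⟩ ⟨hu', ht'⟩ he
      have he' : u = u' := he
      subst he'
      have := (huniq u hu).2 i t t' h h' ht ht'
      subst this
      rfl)
    (fun i u hu => by
      obtain ⟨t, ht, ht2⟩ := hV u hu i
      exact ⟨⟨(u, t), ht⟩, ⟨hu, ht2⟩, rfl⟩)
    (fun i j hij => by
      rw [Function.onFun, Set.disjoint_left]
      intro e h1 h2
      exact hij (hdis _ i j h1.2 h2.2))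
    (fun e he => by
      obtain ⟨i, hi⟩ := (huniq (pr R I e) he).1 e.1.2 e.2
      exact Set.mem_iUnion.2 ⟨i, he, hi⟩)
  have h1 : IsEvenlyCovered (pr R I) u0 (Fin R.natDegree) :=
    IsEvenlyCovered.of_trivialization (t := T) huV
  exact h1.to_isEvenlyCovered_preimage

/-- **Job UM-RB.** -/
theorem t_RB : S_RB := by
  intro R I hI hne hlc hs
  rcases Nat.eq_zero_or_pos R.natDegree with hd | hd
  · haveI : IsEmpty (Fin R.natDegree) := by
      rw [hd]
      infer_instance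
    obtain ⟨r, hr⟩ : ∃ r : Fin R.natDegree → ℂ, True := ⟨fun i => isEmptyElim i, trivial⟩
    refine ⟨fun i => isEmptyElim i, fun i => isEmptyElim i, fun u _ i => isEmptyElim i,
      fun u hu t => ?_⟩
    have h1 := fin_surj R u (hlc u hu) (hs u hu) (fun i => isEmptyElim i)
      (fun i => isEmptyElim i) (fun i => isEmptyElim i) t
    rw [h1]
    exact ⟨fun ⟨i, _⟩ => isEmptyElim i, fun ⟨i, _⟩ => isEmptyElim i⟩
  · have cov := pr_cover R I hd hlc hs
    haveI : ContractibleSpace I := hI.2.convex.contractibleSpace hne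
    haveI : LocallyPathConnectedSpace I := hI.1.locallyPathConnectedSpace
    haveI : PreconnectedSpace I := Subtype.preconnectedSpace hI.2.isPreconnected
    obtain ⟨u0, hu0⟩ := hne
    obtain ⟨r, hr, hr0⟩ := enum_roots R u0 (hlc u0 hu0) (hs u0 hu0)
    have hF : ∀ i, ∃ F : C(I, EE R I), F ⟨u0, hu0⟩ = ⟨(⟨u0, hu0⟩, r i), hr0 i⟩ ∧
        pr R I ∘ F = id := by
      intro i
      obtain ⟨F, hF, _⟩ := cov.existsUnique_continuousMap_lifts (ContinuousMap.id I) ⟨u0, hu0⟩
        ⟨(⟨u0, hu0⟩, r i), hr0 i⟩ rfl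
      exact ⟨F, hF.1, hF.2⟩
    choose F hF1 hF2 using hF
    have hF3 : ∀ i (u : I), (F i u).1.1 = u := fun i u => congrFun (hF2 i) u
    classical
    let σ : Fin R.natDegree → ℝ → ℂ := fun i u => if h : u ∈ I then (F i ⟨u, h⟩).1.2 else 0
    have hσ : ∀ i (u : I), σ i u = (F i u).1.2 := fun i u => dif_pos u.2
    have hroot : ∀ i (u : I), ev R u (σ i u) = 0 := by
      intro i u
      have h1 := (F i u).2
      rw [hF3 i u] at h1
      rw [hσ]
      exact h1
    have hinj : ∀ u ∈ I, Function.Injective fun i => σ i u := by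
      intro u hu i j hij
      have hij' : (F i ⟨u, hu⟩).1.2 = (F j ⟨u, hu⟩).1.2 := by
        rw [← hσ, ← hσ]
        exact hij
      have h1 : F i ⟨u, hu⟩ = F j ⟨u, hu⟩ :=
        Subtype.ext (Prod.ext ((hF3 i _).trans (hF3 j _).symm) hij')
      have h2 := cov.eq_of_comp_eq (F i).continuous (F j).continuous
        ((hF2 i).trans (hF2 j).symm) ⟨u, hu⟩ h1
      have h3 : F i ⟨u0, hu0⟩ = F j ⟨u0, hu0⟩ := congrFun h2 _
      rw [hF1, hF1] at h3
      have h4 := congrArg (fun e : EE R I => e.1.2) h3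
      exact hr h4
    refine ⟨σ, fun i => ?_, hinj, fun u hu t => ?_⟩
    · rw [continuousOn_iff_continuous_restrict]
      exact ((snd_cont R I).comp (F i).continuous).congr fun u => (hσ i u).symm
    · exact fin_surj R u (hlc u hu) (hs u hu) (fun i => σ i u) (hinj u hu)
        (fun i => hroot i ⟨u, hu⟩) t

end

end Pool.Agent.Q237.UM
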